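import Pool.Agent.R903.Chow

/-!
# Isotropic divisor classes on blow-ups of a surface: definitions
-/

open CategoryTheory AlgebraicGeometry
open Pool.Agent.H914 Pool.Agent.H914.VarClass Pool.Agent.H914.VarClass.Obj
open Pool.Agent.R903

universe u v

namespace Pool.Agent.R936.Iso

variable {k : Type u} [Field k] {𝒱 : VarClass k}

/-- The class of (the closure of) the point `x` of the scheme `X`. -/
noncomputable def ptClass (C : ChowTheory.{u, v} 𝒱) (X : 𝒱.Obj) (x : X.V.X) : C.CH X :=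
  C.cls X (Finsupp.single x 1 : X.V.X →₀ ℚ)

/-- The self-intersection `D ^ 2` in the Chow group. -/
def sq (C : ChowTheory.{u, v} 𝒱) (X : 𝒱.Obj) (D : C.CH X) : C.CH X := D * D

/-- The closed points of the surface `X`. -/
def IsPoint (X : 𝒱.Obj) (x : X.V.X) : Prop := Order.coheight x = 2

/-- `E` behaves like an exceptional curve of `π` over the point `x`: `π_* E = 0` and
`π_* (E ^ 2) = - x`. -/
def IsExc (C : ChowTheory.{u, v} 𝒱) {X Y : 𝒱.Obj} (π : Y ⟶ X) (x : X.V.X) (E : C.CH Y) : Prop :=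
  E ∈ C.gr Y 1 ∧ C.push π E = 0 ∧ C.push π (sq C Y E) = - ptClass C X x

/-- `π` behaves like a birational morphism of surfaces: `π_* 1 = 1`, and the direct image of
zero-cycles is injective. -/
def IsBirat (C : ChowTheory.{u, v} 𝒱) {X Y : 𝒱.Obj} (π : Y ⟶ X) : Prop :=
  Y.dim = X.dim ∧ C.push π 1 = 1 ∧ ∀ z ∈ C.gr Y 2, C.push π z = 0 → z = 0

/-- The direct image of zero-cycles preserves degrees. -/
def PreservesDeg (C : ChowTheory.{u, v} 𝒱) {X Y : 𝒱.Obj} (π : Y ⟶ X) : Prop :=
  ∀ z ∈ C.gr Y 2, C.deg X (C.push π z) = C.deg Y z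

/-- Morphisms `π : Y ⟶ X` with classes `E i` which behave like the blow-up of the surface `X` in
`m` distinct closed points `x i` and its exceptional curves. -/
structure BlowUp (C : ChowTheory.{u, v} 𝒱) (X : 𝒱.Obj) (m : ℕ) where
  Y : 𝒱.Obj
  π : Y ⟶ X
  x : Fin m → X.V.X
  E : Fin m → C.CH Y
  distinct : Function.Injective x
  isPoint : ∀ i, IsPoint X (x i)
  birat : IsBirat C π
  deg : PreservesDeg C π
  exc : ∀ i, IsExc C π (x i) (E i)
  mul_exc : ∀ i j, i ≠ j → E i * E j = 0

/-- Some (ample) divisor class has as self-intersection number a positive integer. -/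
def HasPositive (C : ChowTheory.{u, v} 𝒱) (X : 𝒱.Obj) : Prop :=
  ∃ L ∈ C.gr X 1, ∃ N : ℕ, 0 < N ∧ C.deg X (sq C X L) = N

/-- Known facts on a surface `X` over an algebraically closed field: closed points have degree one,
there are infinitely many of them, some (ample) divisor has as self-intersection a positive
integer, and the blow-up in finitely many distinct closed points exists. -/
structure SurfaceFacts (C : ChowTheory.{u, v} 𝒱) (X : 𝒱.Obj) : Prop where
  dim_eq : X.dim = 2
  deg_point : ∀ x, IsPoint X x → C.deg X (ptClass C X x) = 1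
  infinite : {x | IsPoint X x}.Infinite
  positive : HasPositive C X
  blowUp : ∀ (m : ℕ) (x : Fin m → X.V.X), Function.Injective x → (∀ i, IsPoint X (x i)) →
    ∃ B : BlowUp C X m, B.x = x

/-- Homologically trivial zero-cycles on `X` are `0`. -/
def NoZeroCycles (C : ChowTheory.{u, v} 𝒱) (X : 𝒱.Obj) : Prop :=
  ∀ z ∈ C.gr X 2, C.deg X z = 0 → z = 0

/-- Every isotropic divisor class on a blow-up of `X` in `m` distinct closed points has square
zero in the Chow group. -/
def IsotropicSquares (C : ChowTheory.{u, v} 𝒱) (X : 𝒱.Obj) (m : ℕ) : Prop :=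
  ∀ B : BlowUp C X m, ∀ D ∈ C.gr B.Y 1, C.deg B.Y (sq C B.Y D) = 0 → sq C B.Y D = 0

/-- The class `π^* L - ∑ a_i E_i` on a blow-up. -/
noncomputable def BlowUp.cls {C : ChowTheory.{u, v} 𝒱} {X : 𝒱.Obj} {m : ℕ} (B : BlowUp C X m)
    (L : C.CH X) (a : Fin m → ℤ) : C.CH B.Y :=
  C.pull B.π L - ∑ i, (a i : ℚ) • B.E i

/-- Here `L ^ 2 = ∑ a_i ^ 2 > 0`, and the isotropic divisor class `π^* L - ∑ a_i E_i` on the blow-up
of `X` in `m` points has square zero, for all sequences of `m` distinct closed points. -/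
def OneIsotropicClass (C : ChowTheory.{u, v} 𝒱) (X : 𝒱.Obj) (m : ℕ) (L : C.CH X)
    (a : Fin m → ℤ) : Prop :=
  L ∈ C.gr X 1 ∧ C.deg X (sq C X L) = ∑ i, (a i : ℚ) ^ 2 ∧ a ≠ 0 ∧
  ∀ B : BlowUp C X m, sq C B.Y (B.cls L a) = 0

end Pool.Agent.R936.Iso
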