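import Pool.Agent.R936.Iso.Defs

/-!
# Isotropic divisor classes on blow-ups of a surface
-/

open CategoryTheory AlgebraicGeometry
open Pool.Agent.H914 Pool.Agent.H914.VarClass Pool.Agent.H914.VarClass.Obj
open Pool.Agent.R903

universe u v

namespace Pool.Agent.R936.Iso

variable {k : Type u} [Field k] {𝒱 : VarClass k} {C : ChowTheory.{u, v} 𝒱} {X Y : 𝒱.Obj}

/-- The direct image of the square of `π^* L - ∑ a_i E_i`. -/
theorem push_square {m : ℕ} (B : BlowUp C X m) (L : C.CH X) (a : Fin m → ℤ) :
    C.push B.π (sq C B.Y (B.cls L a)) =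
      sq C X L - ∑ i, ((a i : ℚ) ^ 2) • ptClass C X (B.x i) := by
  classical
  unfold sq BlowUp.cls
  have h1 : (∑ i, (a i : ℚ) • B.E i) * (∑ i, (a i : ℚ) • B.E i) =
      ∑ i, ((a i : ℚ) ^ 2) • (B.E i * B.E i) := by
    rw [Finset.sum_mul_sum]
    refine Finset.sum_congr rfl fun i _ => ?_
    rw [Finset.sum_eq_single i]
    · rw [smul_mul_smul_comm, pow_two]
    · intro j _ hj
      rw [smul_mul_smul_comm, B.mul_exc i j (Ne.symm hj), smul_zero]
    · intro hi; exact absurd (Finset.mem_univ _) hi
  have h2 : (C.pull B.π L - ∑ i, (a i : ℚ) • B.E i) * (C.pull B.π L - ∑ i, (a i : ℚ) • B.E i) =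
      1 * C.pull B.π (L * L) - (2 : ℚ) • ∑ i, (a i : ℚ) • (B.E i * C.pull B.π L) +
        ∑ i, ((a i : ℚ) ^ 2) • (B.E i * B.E i) := by
    rw [← h1, map_mul]
    have h3 : ∑ i, (a i : ℚ) • (B.E i * C.pull B.π L) =
        (∑ i, (a i : ℚ) • B.E i) * C.pull B.π L := by
      rw [Finset.sum_mul]
      exact Finset.sum_congr rfl fun i _ => by rw [smul_mul_assoc]
    rw [h3, Algebra.smul_def, map_ofNat]
    ring
  have hp := C.isPullPush B.π
  rw [h2, map_add, map_sub, hp.push_mul, B.birat.2.1, one_mul, map_smul, map_sum, map_sum]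
  have h4 : ∑ i, C.push B.π ((a i : ℚ) • (B.E i * C.pull B.π L)) = 0 := by
    refine Finset.sum_eq_zero fun i _ => ?_
    rw [map_smul, hp.push_mul, (B.exc i).2.1, zero_mul, smul_zero]
  have h5 : ∑ i, C.push B.π (((a i : ℚ) ^ 2) • (B.E i * B.E i)) =
      - ∑ i, ((a i : ℚ) ^ 2) • ptClass C X (B.x i) := by
    rw [← Finset.sum_neg_distrib]
    refine Finset.sum_congr rfl fun i _ => ?_
    have h6 : C.push B.π (B.E i * B.E i) = - ptClass C X (B.x i) := (B.exc i).2.2
    rw [map_smul, h6, smul_neg]
  rw [h4, h5, smul_zero, sub_zero, sub_eq_add_neg]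

/-- All points of `X` have the same class, if one isotropic class has square zero. -/
theorem ptClass_eq (hX : SurfaceFacts C X) {m : ℕ} {L : C.CH X} {a : Fin m → ℤ}
    (h : OneIsotropicClass C X m L a) {p q : X.V.X} (hp : IsPoint X p) (hq : IsPoint X q) :
    ptClass C X p = ptClass C X q := by
  classical
  obtain ⟨-, -, ha, h⟩ := h
  obtain ⟨i₀, hi₀⟩ : ∃ i, a i ≠ 0 := by
    by_contra h'
    push Not at h'
    exact ha (funext h')
  -- the other points
  have hinf : ({x | IsPoint X x} \ {p, q}).Infinite := hX.infinite.sdiff (Set.toFinite _)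
  obtain ⟨y, hys, hyc⟩ := hinf.exists_subset_card_eq m
  have e : Fin m ≃ y := (Finset.equivFinOfCardEq hyc).symm
  set z : Fin m → X.V.X := fun i => (e i).1 with hz
  have hzinj : Function.Injective z := Subtype.val_injective.comp e.injective
  have hzp : ∀ i, IsPoint X (z i) := fun i => (hys (e i).2).1
  have hzn : ∀ i, z i ≠ p ∧ z i ≠ q := by
    intro i
    have := (hys (e i).2).2
    simp only [Set.mem_insert_iff, Set.mem_singleton_iff, not_or] at this
    exact this
  have key : ∀ w : X.V.X, IsPoint X w → (∀ i, z i ≠ w) →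
      sq C X L = (a i₀ : ℚ) ^ 2 • ptClass C X w +
        ∑ i ∈ Finset.univ.erase i₀, ((a i : ℚ) ^ 2) • ptClass C X (z i) := by
    intro w hw hwn
    set x : Fin m → X.V.X := Function.update z i₀ w with hx
    have hxinj : Function.Injective x := by
      intro i j hij
      by_cases hi : i = i₀
      · by_cases hj : j = i₀
        · rw [hi, hj]
        · rw [hx, hi, Function.update_self, Function.update_of_ne hj] at hij
          exact absurd hij.symm (hwn j)
      · by_cases hj : j = i₀
        · rw [hx, hj, Function.update_self, Function.update_of_ne hi] at hij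
          exact absurd hij (hwn i)
        · rw [hx, Function.update_of_ne hi, Function.update_of_ne hj] at hij
          exact hzinj hij
    have hxp : ∀ i, IsPoint X (x i) := by
      intro i
      by_cases hi : i = i₀
      · rw [hx, hi, Function.update_self]; exact hw
      · rw [hx, Function.update_of_ne hi]; exact hzp i
    obtain ⟨B, hB⟩ := hX.blowUp m x hxinj hxp
    have h1 := h B
    have h2 := push_square B L a
    rw [h1, map_zero, hB] at h2
    have h3 : sq C X L = ∑ i, ((a i : ℚ) ^ 2) • ptClass C X (x i) := (sub_eq_zero.1 h2.symm)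
    rw [h3, ← Finset.add_sum_erase _ _ (Finset.mem_univ i₀)]
    congr 1
    · rw [hx, Function.update_self]
    · refine Finset.sum_congr rfl fun i hi => ?_
      rw [hx, Function.update_of_ne (Finset.ne_of_mem_erase hi)]
  have h1 := key p hp fun i => (hzn i).1
  have h2 := key q hq fun i => (hzn i).2
  rw [h1] at h2
  have h3 : (a i₀ : ℚ) ^ 2 • ptClass C X p = (a i₀ : ℚ) ^ 2 • ptClass C X q := add_right_cancel h2
  have h4 : ((a i₀ : ℚ) ^ 2) ≠ 0 := pow_ne_zero _ (by exact_mod_cast hi₀)
  have h5 := congrArg (fun t => ((a i₀ : ℚ) ^ 2)⁻¹ • t) h3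
  simpa only [smul_smul, inv_mul_cancel₀ h4, one_smul] using h5

/-- If all points have the same class there are no homologically trivial zero-cycles. -/
theorem noZeroCycles (hX : SurfaceFacts C X)
    (h : ∀ p q : X.V.X, IsPoint X p → IsPoint X q → ptClass C X p = ptClass C X q) :
    NoZeroCycles C X := by
  classical
  obtain ⟨o, ho⟩ := hX.infinite.nonempty
  have key : ∀ (z : X.V.X →₀ ℚ), (∀ x, z x ≠ 0 → IsPoint X x) →
      C.cls X z = C.deg X (C.cls X z) • ptClass C X o := by
    intro z hz
    have h1 : z = z.sum fun x c => c • (Finsupp.single x 1 : X.V.X →₀ ℚ) := by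
      conv_lhs => rw [← Finsupp.sum_single z]
      refine Finsupp.sum_congr fun x _ => ?_
      rw [Finsupp.smul_single, smul_eq_mul, mul_one]
    have h2 : C.cls X z = z.sum fun x c => c • ptClass C X x := by
      conv_lhs => rw [h1]
      unfold Finsupp.sum
      have := map_sum (C.cls X) (fun x => z x • (Finsupp.single x 1 : X.V.X →₀ ℚ)) z.support
      refine Eq.trans this ?_
      refine Finset.sum_congr rfl fun x _ => ?_
      exact (C.cls X).map_smul (z x) (Finsupp.single x 1 : X.V.X →₀ ℚ)
    have h3 : C.cls X z = (z.sum fun _ c => c) • ptClass C X o := by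
      rw [h2]
      unfold Finsupp.sum
      rw [Finset.sum_smul]
      refine Finset.sum_congr rfl fun x hx => ?_
      show z x • ptClass C X x = z x • ptClass C X o
      rw [h x o (hz x (Finsupp.mem_support_iff.1 hx)) ho]
    rw [h3, map_smul, hX.deg_point o ho, smul_eq_mul, mul_one]
  intro w hw hdeg
  obtain ⟨z, hz, rfl⟩ := ((C.isChowRing X).mem_gr).1 hw
  have h1 := key z (fun x hx => by
    have := hz x hx
    unfold IsPoint
    exact_mod_cast this)
  have h2 : C.cls X z = C.deg X (C.cls X z) • ptClass C X o := h1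
  rw [h2, hdeg, zero_smul]

/-- **Main theorem.** -/
theorem main (hX : SurfaceFacts C X) :
    List.TFAE [NoZeroCycles C X,
      ∀ m, IsotropicSquares C X m,
      IsotropicSquares C X 4,
      ∃ (m : ℕ) (L : C.CH X) (a : Fin m → ℤ), OneIsotropicClass C X m L a] := by
  tfae_have 1 → 2 := by
    intro h m B D hD hdeg
    have hDD : sq C B.Y D ∈ C.gr B.Y 2 := (C.isChowRing B.Y).mul_mem hD hD
    apply B.birat.2.2 _ hDD
    apply h
    · exact (C.isPullPush B.π).push_mem hDD (by rw [B.birat.1])
    · rw [B.deg _ hDD, hdeg]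
  tfae_have 2 → 3 := fun h => h 4
  tfae_have 3 → 4 := by
    intro h
    obtain ⟨L, hL, N, hN, hdeg⟩ := hX.positive
    obtain ⟨a, b, c, d, habcd⟩ := Nat.sum_four_squares N
    have hsum : C.deg X (sq C X L) = ∑ i, ((![(a : ℤ), b, c, d] i : ℤ) : ℚ) ^ 2 := by
      rw [hdeg, ← habcd, Fin.sum_univ_four]
      push_cast
      rfl
    refine ⟨4, L, ![(a : ℤ), b, c, d], hL, hsum, ?_, ?_⟩
    · intro h0
      have e0 := congrFun h0 0
      have e1 := congrFun h0 1
      have e2 := congrFun h0 2
      have e3 := congrFun h0 3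
      simp at e0 e1 e2 e3
      subst e0 e1 e2 e3
      simp at habcd
      omega
    · intro B
      have hmem : B.cls L ![(a : ℤ), b, c, d] ∈ C.gr B.Y 1 :=
        Submodule.sub_mem _ ((C.isPullPush B.π).pull_mem hL)
          (Submodule.sum_mem _ fun i _ => Submodule.smul_mem _ _ (B.exc i).1)
      apply h B _ hmem
      have hm2 : sq C B.Y (B.cls L ![(a : ℤ), b, c, d]) ∈ C.gr B.Y 2 :=
        (C.isChowRing B.Y).mul_mem hmem hmem
      rw [← B.deg _ hm2, push_square B, map_sub, hsum, map_sum]
      rw [sub_eq_zero]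
      refine Finset.sum_congr rfl fun i _ => ?_
      rw [map_smul, hX.deg_point _ (B.isPoint i), smul_eq_mul, mul_one]
  tfae_have 4 → 1 := by
    rintro ⟨m, L, a, h⟩
    exact noZeroCycles hX fun p q hp hq => ptClass_eq hX h hp hq
  tfae_finish

end Pool.Agent.R936.Iso
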